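import Pool.Agent.Helper83_S1S3.All

/-!
# 3-manifolds in homology `S¹ × S³` versus `S¹ × S³`

There is a closed connected orientable smooth 3-manifold `Y` which has a smooth embedding,
surjective on `H₁`, into an integer homology `S¹ × S³`, but none into `S¹ × S³` itself.
-/

set_option autoImplicit false

open scoped Manifold ContDiff

noncomputable section

namespace Pool.Agent.Results.MP_8e71ea_gt.HomologyS1S3

open Pool.Agent.S1S3

/-- a closed (compact, Hausdorff, without boundary) connected smooth manifold of dimension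
`1 + n`, with its atlas modelled on `ℝ × ℝⁿ` -/
structure ClosedMfd (n : ℕ) where
  carrier : Type
  top : TopologicalSpace carrier
  atlas : ChartedSpace (ModelProd (Eu 1) (Eu n)) carrier
  smooth : IsManifold ((𝓡 1).prod (𝓡 n)) ∞ carrier
  compact : CompactSpace carrier
  connected : ConnectedSpace carrier
  hausdorff : T2Space carrier

instance (n : ℕ) (M : ClosedMfd n) : TopologicalSpace M.carrier := M.top

instance (n : ℕ) (M : ClosedMfd n) : ChartedSpace (ModelProd (Eu 1) (Eu n)) M.carrier := M.atlas

/-- `S¹ × S³` with its standard smooth structure -/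
def S1xS3 : ClosedMfd 3 where
  carrier := Circle × Sn 3
  top := inferInstance
  atlas := inferInstance
  smooth := inferInstance
  compact := inferInstance
  connected := by
    have : ConnectedSpace (Sn 3) := connected_Sn 3 three_ne_zero
    infer_instance
  hausdorff := inferInstance

/-- the closed connected 3-manifold `Y` is orientable: `H₃(Y; ℤ)` is infinite cyclic -/
def Orientable3 (Y : ClosedMfd 2) : Prop := Nonempty (HH 3 Y.carrier ≃+ ℤ)

/-- the closed connected 4-manifold `X` is an integer homology `S¹ × S³` -/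
def IsHomologyS1xS3 (X : ClosedMfd 3) : Prop :=
  ∀ i : ℕ, Nonempty (HH i X.carrier ≃+ HH i S1xS3.carrier)

/-- the 3-manifold `Y` has a smooth embedding into the 4-manifold `X` that is surjective on
`H₁( - ; ℤ)` -/
def EmbedsH1Surj (Y : ClosedMfd 2) (X : ClosedMfd 3) : Prop :=
  ∃ ι : C(Y.carrier, X.carrier),
    Manifold.IsSmoothEmbedding ((𝓡 1).prod (𝓡 2)) ((𝓡 1).prod (𝓡 3)) ∞ ι ∧
      Function.Surjective (Hm 1 ι)

/-- Full answer (yes) to Q1: there is a closed connected orientable smooth 3-manifold `Y` that has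
an `H₁`-surjective smooth embedding into some integer homology `S¹ × S³`, but no `H₁`-surjective
smooth embedding into `S¹ × S³` itself. -/
theorem result :
    ∃ Y : ClosedMfd 2, Orientable3 Y ∧
      (∃ X : ClosedMfd 3, IsHomologyS1xS3 X ∧ EmbedsH1Surj Y X) ∧ ¬ EmbedsH1Surj Y S1xS3 := by
  obtain ⟨Y, tY, cY, h1, h2, h3, h4, h5, ⟨X, tX, cX, k1, k2, k3, k4, k5, ι, hι, hs⟩, hno⟩ :=
    finalTheorem
  refine ⟨⟨Y, tY, cY, h1, h2, h3, h4⟩, h5,
    ⟨⟨X, tX, cX, k1, k2, k3, k4⟩, k5, ι, hι, hs⟩, ?_⟩
  rintro ⟨ι', h, h'⟩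
  exact hno ι' h h'

end Pool.Agent.Results.MP_8e71ea_gt.HomologyS1S3
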